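import Pool.Agent.H478.CW20

/-! Sums of consecutive normalised gaps between zeta zeros: the joint central limit theorem in
almost all windows of boundedly many mean spacings. -/

open MeasureTheory ProbabilityTheory Filter

namespace Pool.Agent.Results.MP_21f43f_nt.BlockSumsCLT

/-- the number of nontrivial zeros of zeta with ordinate in `(0, t]`, with multiplicity -/
noncomputable def NZ (t : ℝ) : ℕ :=
  ∑ᶠ s ∈ {s : ℂ | riemannZeta s = 0 ∧ 0 < s.re ∧ s.re < 1 ∧ 0 < s.im ∧ s.im ≤ t},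
    analyticOrderNatAt riemannZeta s

/-- the `n`-th positive ordinate (`n ≥ 1`), ordinates repeated according to multiplicity -/
noncomputable def ord (n : ℕ) : ℝ := sInf {t : ℝ | n ≤ NZ t}

/-- the normalised ordinate `γ_n log γ_n / 2π` -/
noncomputable def unf (n : ℕ) : ℝ := ord n * Real.log (ord n) / (2 * Real.pi)

/-- the normalised gap `δ_n` -/
noncomputable def gap (n : ℕ) : ℝ := unf (n + 1) - unf n

/-- the sum of the `k` consecutive gaps `δ_n, …, δ_{n+k-1}` -/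
noncomputable def S (n k : ℕ) : ℝ := ∑ i ∈ Finset.range k, gap (n + i)

/-- for `j = 1, …, m` the sum of the first `j r` gaps from the index `n` on is at most
`j r + y_j √(log r) / π` -/
def Ev {m : ℕ} (y : Fin m → ℝ) (r n : ℕ) : Prop := ∀ j : Fin m,
  S n (((j : ℕ) + 1) * r) ≤ ((j : ℕ) + 1 : ℝ) * r + y j * (Real.sqrt (Real.log r) / Real.pi)

/-- the probability that `(ζ_j - ζ_0) / √2 ≤ y_j` for `j = 1, …, m`, where `ζ_0, …, ζ_m` are
independent standard normal variables -/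
noncomputable def Phi {m : ℕ} (y : Fin m → ℝ) : ℝ :=
  (Measure.pi fun _ : Fin (m + 1) => gaussianReal 0 1).real
    {z | ∀ j : Fin m, z j.succ - z 0 ≤ Real.sqrt 2 * y j}

lemma ev_iff {m : ℕ} (y : Fin m → ℝ) (r n : ℕ) : Ev y r n ↔ Pool.Agent.H478.CW.Ev y r n := by
  have h : ∀ n, gap n = TH800.MS.dlt n := fun n => by
    unfold gap unf TH800.MS.dlt
    rw [← sub_div]
    rfl
  unfold Ev Pool.Agent.H478.CW.Ev S
  simp only [h]

/-- **The joint central limit theorem for sums of consecutive gaps**, under RH, in almost all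
windows of boundedly many mean spacings. -/
theorem result (RH : RiemannHypothesis) (m : ℕ) (y : Fin m → ℝ) (ε : ℝ) (hε : 0 < ε) :
    ∃ r0 : ℕ, ∀ r : ℕ, r0 ≤ r → ∃ Λ0 : ℝ, ∀ Λ : ℝ, Λ0 ≤ Λ → ∃ T0 : ℝ, ∀ T : ℝ, T0 ≤ T →
      volume {t : ℝ | T ≤ t ∧ t ≤ 2 * T ∧ ε * Λ <
        |(({n : ℕ | 1 ≤ n ∧ t < ord n ∧ ord n ≤ t + 2 * Real.pi * Λ / Real.log T ∧
          Ev y r n}.ncard : ℕ) : ℝ) - Phi y * Λ|} ≤ ENNReal.ofReal (ε * T) := by
  obtain ⟨r0, h⟩ := eventually_atTop.1 (Pool.Agent.H478.CW.win_law RH y hε)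
  refine ⟨r0, fun r hr => ?_⟩
  have h1 := h r hr
  have hP : Phi y = Pool.Agent.H478.CW.FF y := (Pool.Agent.H478.CW.FF_eq y).symm
  simp only [ev_iff, hP]
  obtain ⟨Λ0, h3⟩ := eventually_atTop.1 h1
  refine ⟨Λ0, fun Λ hΛ => ?_⟩
  obtain ⟨T0, h4⟩ := eventually_atTop.1 (h3 Λ hΛ)
  exact ⟨T0, fun T hT => h4 T hT⟩

end Pool.Agent.Results.MP_21f43f_nt.BlockSumsCLT
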