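import Pool.Agent.H666.LRC.Dys

/-!
# Dyson's law for the covariances of the gaps of the zeta zeros (under RH)

For the eigenvalues of large GUE matrices the covariance of two normalised gaps at distance `k` is
asymptotic to `-1/(2π² k²)` (Dyson's law).  On the Riemann hypothesis we prove this for the gaps
`δ_n` of the zeta zeros on average over short windows of `k`: if `φ` is the Fourier transform of a
smooth even function `G` supported in `[-1, 1]`, so that the integral of `φ` is `G(0)`, then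
`(1/H) ∑_k φ((k - m)/H) C_N(|k|) = -G(0) / (2π² m²) + O(log³ m / H³ + H² / m⁴)` for all real
`2 ≤ H ≤ m`, as `N → ∞`; the error is `o(m⁻²)` for `m^(2/3) log m ≪ H ≪ m`.  Moreover the covariances
satisfy the sum rule
`C_N(0) + 2 ∑_{1 ≤ k < m} (1 - k/m) C_N(k) = (log m) / (π² m) + O((log log m) / m)`, and one
of the covariances at the lags below `160` is at most `-6 · 10⁻⁶`.

Proof.  Montgomery's theorem on the pair correlation gives the mean over `n` of
`∑_k f(S_k(n))`, where `S_k(n)` is the sum of `k` consecutive gaps and `f` has its Fourier transform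
supported in `(-1, 1)`; here the pairs of zeros at large distance in the indices are estimated by
comparing Montgomery's theorem with Taylor's formula for a positive kernel.  For
`f(x) = φ((x - m)/H) + φ((x + m)/H)` Taylor's formula at `x = k` and Poisson summation
give `∑_k f''(k) V(k)`, `V(k)` the mean square of `S_k - k`, up to
`O(∑_k |f'''(k)| log³ k) = O(log³ m / H²)` by the rigidity of the zeros.  Two summations by parts turn
this into the covariances.  The sum rule is the asymptotic formula `(1/π²) log m + O(log log m)` for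
the mean square of `S_m - m`, which is the integral of the power spectrum of the gaps against the
Fejér kernel; the covariance law gives the power spectrum near frequency zero.  The last statement comes from an explicit bound for this mean square and the lower bound `0.052` for
the variance of a gap.
-/

open Filter

namespace Pool.Agent.Results.MP_21f43f_nt.DysonCovariances

/-- multiplicity of `s` as a zero of the Riemann zeta function (order of vanishing at `s`) -/
noncomputable def zmult (s : ℂ) : ℕ := analyticOrderNatAt riemannZeta s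

/-- the number of nontrivial zeros of `ζ` with ordinate in `(0, t]`, with multiplicity -/
noncomputable def NZ (t : ℝ) : ℕ :=
  ∑ᶠ s ∈ {s : ℂ | riemannZeta s = 0 ∧ 0 < s.re ∧ s.re < 1 ∧ 0 < s.im ∧ s.im ≤ t}, zmult s

/-- for `n ≥ 1`: the `n`-th positive ordinate `γ n` of a nontrivial zero of `ζ`, the ordinates being
listed in nondecreasing order and repeated according to multiplicity -/
noncomputable def γ (n : ℕ) : ℝ := sInf {t : ℝ | n ≤ NZ t}

/-- the normalised gaps `δ_n = (γ_{n+1} log γ_{n+1} - γ_n log γ_n) / 2π` -/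
noncomputable def δ (n : ℕ) : ℝ :=
  (γ (n + 1) * Real.log (γ (n + 1)) - γ n * Real.log (γ n)) / (2 * Real.pi)

/-- the empirical covariance of the gaps at lag `k`:
`C_N(k) = (1/N) ∑_{n ≤ N} (δ_n - 1) (δ_{n+k} - 1)` -/
noncomputable def C (N k : ℕ) : ℝ :=
  (1 / N : ℝ) * ∑ n ∈ Finset.Icc 1 N, (δ n - 1) * (δ (n + k) - 1)

/-- the Fourier transform `φ(x) = 2 ∫_0^1 G(t) cos(2π x t) dt` of an even function `G` supported in
`[-1, 1]` -/
noncomputable def φ (G : ℝ → ℝ) (x : ℝ) : ℝ :=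
  2 * ∫ t in (0 : ℝ)..1, G t * Real.cos (2 * Real.pi * x * t)

/-- the bound `1/4 + ((log (2m) + 3)² + 1) / π²` -/
noncomputable def B (m : ℕ) : ℝ :=
  1 / 4 + ((Real.log (2 * m) + 3) ^ 2 + 1) / Real.pi ^ 2

/-- the sum rule for the covariances -/
theorem sum_rule (RH : RiemannHypothesis) :
    ∃ K : ℝ, ∀ m : ℕ, 16 ≤ m → ∀ᶠ N : ℕ in atTop,
      |C N 0 + 2 * ∑ k ∈ Finset.Ico 1 m, (1 - (k : ℝ) / m) * C N k -
        Real.log m / (Real.pi ^ 2 * m)| ≤ K * Real.log (Real.log m) / m := by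
  obtain ⟨K, h⟩ := Pool.Agent.H666.LRC.var_final RH Pool.Agent.H666.LRC.close_ag
  refine ⟨K + 1, fun m hm => ?_⟩
  have hm16 : (16 : ℝ) ≤ m := by exact_mod_cast hm
  have hm0 : (0 : ℝ) < m := by linarith
  have hlog16 : (2.77 : ℝ) ≤ Real.log 16 := by
    rw [show (16 : ℝ) = 2 ^ 4 by norm_num, Real.log_pow]
    have := Real.log_two_gt_d9
    push_cast
    linarith
  have hl : 2.77 ≤ Real.log (m : ℝ) := hlog16.trans (Real.log_le_log (by norm_num) hm16)
  have hw : 1 ≤ Real.log (Real.log (m : ℝ)) := by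
    rw [Real.le_log_iff_exp_le (by linarith)]
    have := Real.exp_one_lt_d9
    linarith
  set X := Real.log (Real.log (m : ℝ)) with hX
  have hC : ∀ N k : ℕ, C N k = Pool.Agent.H666.ZG.cv Pool.Agent.H666.ZG.ag N k := fun N k => rfl
  filter_upwards [h m hm, Pool.Agent.H666.ZG.cov_le RH (by omega : 1 ≤ m)
    (show (0 : ℝ) < 1 / m by positivity), eventually_gt_atTop 0] with N h1 h2 h3
  have hN : (0 : ℝ) < N := by exact_mod_cast h3
  simp only [hC]
  set A := Pool.Agent.H666.ZG.cv Pool.Agent.H666.ZG.ag N 0 +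
    2 * ∑ k ∈ Finset.Ico 1 m, (1 - (k : ℝ) / m) *
      Pool.Agent.H666.ZG.cv Pool.Agent.H666.ZG.ag N k with hA
  have h4 : |(1 / N : ℝ) * (∑ n ∈ Finset.Icc 1 N, (Pool.Agent.H666.ZG.Sr m n - m) ^ 2) / m -
      Real.log m / (Real.pi ^ 2 * m)| ≤ K * X / m := by
    have e0 : Pool.Agent.H666.LRC.Vr Pool.Agent.H666.ZG.ag N m =
        (1 / N : ℝ) * (∑ n ∈ Finset.Icc 1 N, (Pool.Agent.H666.ZG.Sr m n - m) ^ 2) := by
      unfold Pool.Agent.H666.LRC.Vr
      congr 1
      apply Finset.sum_congr rfl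
      intro n _
      rw [Pool.Agent.H666.ZG.sum_ag]
    rw [← e0]
    have e : Pool.Agent.H666.LRC.Vr Pool.Agent.H666.ZG.ag N m / m -
        Real.log m / (Real.pi ^ 2 * m) =
        (Pool.Agent.H666.LRC.Vr Pool.Agent.H666.ZG.ag N m - 1 / Real.pi ^ 2 * Real.log m) / m := by
      field_simp
    rw [e, abs_div, abs_of_pos hm0]
    exact div_le_div_of_nonneg_right h1 hm0.le
  have h5 := abs_sub_le A
    ((1 / N : ℝ) * (∑ n ∈ Finset.Icc 1 N, (Pool.Agent.H666.ZG.Sr m n - m) ^ 2) / m)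
    (Real.log m / (Real.pi ^ 2 * m))
  have h6 : (K + 1) * X / m = K * X / m + X / m := by ring
  have h7 : 1 / (m : ℝ) ≤ X / m := div_le_div_of_nonneg_right hw hm0.le
  rw [h6]
  linarith

/-- one of the covariances at the lags below `160` is negative -/
theorem negative_lag (RH : RiemannHypothesis) :
    ∀ᶠ N : ℕ in atTop, ∃ k : ℕ, 1 ≤ k ∧ k < 160 ∧ C N k ≤ -(6 / 1000000) := by
  have hC : ∀ N k : ℕ, C N k = Pool.Agent.H666.ZG.cv Pool.Agent.H666.ZG.ag N k := fun N k => rfl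
  have p1 : ∀ m : ℕ, 1 ≤ m → ∀ ε : ℝ, 0 < ε → ∀ᶠ N : ℕ in atTop,
      (1 / N : ℝ) * ∑ n ∈ Finset.Icc 1 N, (Pool.Agent.H666.ZG.Sr m n - m) ^ 2 ≤ B m + ε := by
    intro m hm ε hε
    filter_upwards [Pool.Agent.H666.ZG.var_le RH hm hε, eventually_gt_atTop 0] with N h hN
    have hNpos : (0 : ℝ) < N := by exact_mod_cast hN
    have hB := Pool.Agent.H666.ZG.Bd_le hm
    rw [one_div, inv_mul_eq_div, div_le_iff₀ hNpos]
    refine h.trans (mul_le_mul_of_nonneg_right ?_ hNpos.le)
    unfold B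
    linarith
  have p3 : ∀ m : ℕ, 1 ≤ m → ∀ ε : ℝ, 0 < ε → ∀ᶠ N : ℕ in atTop,
      ∑ k ∈ Finset.Ico 1 m, (1 - (k : ℝ) / m) * C N k ≤ B m / (2 * m) - 0.026 + ε := by
    intro m hm ε hε
    have hm1 : (1 : ℝ) ≤ m := by exact_mod_cast hm
    filter_upwards [p1 m hm ε hε, Pool.Agent.H666.ZG.cov_le RH hm hε,
      Pool.Agent.H666.ZG.var_ge RH] with N h1 h2 h3
    have h4 := (abs_le.1 h2).2
    have h5 : (1 / N : ℝ) * (∑ n ∈ Finset.Icc 1 N, (Pool.Agent.H666.ZG.Sr m n - m) ^ 2) / m ≤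
        B m / m + ε := by
      have h6 : (1 / N : ℝ) * (∑ n ∈ Finset.Icc 1 N, (Pool.Agent.H666.ZG.Sr m n - m) ^ 2) / m ≤
          (B m + ε) / m := div_le_div_of_nonneg_right h1 (by linarith)
      have h7 : ε / m ≤ ε := div_le_self hε.le hm1
      have h8 : (B m + ε) / m = B m / m + ε / m := add_div _ _ _
      linarith
    have h9 : B m / (2 * m) = B m / m / 2 := by
      rw [mul_comm, div_mul_eq_div_div]
    simp only [hC]
    rw [h9]
    linarith
  have hB160 : B 160 / (2 * (160 : ℕ)) ≤ 0.02545 := by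
    have hlog : Real.log (2 * ((160 : ℕ) : ℝ)) ≤ 5.7684 := by
      have h1 : (2 * ((160 : ℕ) : ℝ)) = 2 ^ 6 * 5 := by norm_num
      rw [h1, Real.log_mul (by norm_num) (by norm_num), Real.log_pow]
      have h2 := Real.log_two_lt_d9
      have h3 : Real.log 5 ≤ 1.60945 := by
        have h4 : Real.log 5 = Real.log ((5 : ℝ) / 4) + 2 * Real.log 2 := by
          rw [Real.log_div (by norm_num) (by norm_num), show (4 : ℝ) = 2 ^ 2 by norm_num,
            Real.log_pow]
          push_cast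
          ring
        have h5 : Real.log ((5 : ℝ) / 4) ≤ 0.22315 := by
          rw [Real.log_le_iff_le_exp (by norm_num)]
          have h6 := Real.sum_le_exp_of_nonneg (show (0 : ℝ) ≤ 0.22315 by norm_num) 6
          refine le_trans ?_ h6
          norm_num [Finset.sum_range_succ, Nat.factorial]
        rw [h4]
        linarith
      push_cast
      linarith
    have hlog0 : 0 ≤ Real.log (2 * ((160 : ℕ) : ℝ)) := Real.log_nonneg (by norm_num)
    have h7 : (Real.log (2 * ((160 : ℕ) : ℝ)) + 3) ^ 2 ≤ (5.7684 + 3) ^ 2 :=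
      pow_le_pow_left₀ (by linarith) (by linarith) 2
    have hpi := Pool.Agent.H707.SM.pi_sq_le
    have hpp : (0 : ℝ) < Real.pi ^ 2 := by positivity
    have h8 : ((Real.log (2 * ((160 : ℕ) : ℝ)) + 3) ^ 2 + 1) / Real.pi ^ 2 ≤ 7.8914 := by
      rw [div_le_iff₀ hpp]
      nlinarith [hpi.2]
    unfold B
    rw [div_le_iff₀ (by norm_num)]
    push_cast
    push_cast at h8
    linarith
  filter_upwards [p3 160 (by norm_num) (1 / 100000) (by norm_num)] with N h
  by_contra hcon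
  push Not at hcon
  have h1 : ∑ k ∈ Finset.Ico (1 : ℕ) 160, (1 - (k : ℝ) / (160 : ℕ)) * (-(6 / 1000000)) ≤
      ∑ k ∈ Finset.Ico (1 : ℕ) 160, (1 - (k : ℝ) / (160 : ℕ)) * C N k := by
    apply Finset.sum_le_sum
    intro k hk
    rw [Finset.mem_Ico] at hk
    have h2 : (k : ℝ) ≤ 160 := by exact_mod_cast hk.2.le
    apply mul_le_mul_of_nonneg_left (hcon k hk.1 hk.2).le
    push_cast
    rw [sub_nonneg, div_le_one (by norm_num)]
    exact h2
  have h3 : ∑ k ∈ Finset.Ico (1 : ℕ) 160, (1 - (k : ℝ) / (160 : ℕ)) * (-(6 / 1000000)) =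
      -(477 / 1000000) := by
    rw [← Finset.sum_mul]
    have h4 : ∑ k ∈ Finset.Ico (1 : ℕ) 160, (1 - (k : ℝ) / (160 : ℕ)) = 79.5 := by
      have h5 : ∑ k ∈ Finset.Ico (1 : ℕ) 160, (k : ℝ) = 12720 := by
        have h6 : ∑ k ∈ Finset.Ico (1 : ℕ) 160, k = 12720 := by decide +kernel
        rw [← Nat.cast_sum, h6]
        norm_num
      rw [Finset.sum_sub_distrib, ← Finset.sum_div, h5]
      norm_num
    rw [h4]
    norm_num
  rw [h3] at h1
  have h5 := h1.trans h
  have e160 : ((160 : ℕ) : ℝ) = 160 := by norm_num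
  rw [e160] at hB160 h5
  linarith

/-- On the Riemann hypothesis:
(1) let `G` be smooth, even and supported in `[-1, 1]`.  There is `K` such that for all real `H`, `m`
with `2 ≤ H ≤ m`, for all large `N`,
`|(1/H) ∑_{|k| ≤ N} φ((k - m)/H) C_N(|k|) + G(0)/(2π² m²)| ≤ K (log³ m / H³ + H² / m⁴)`;
(2) there is `K` such that for every `m ≥ 16`, for all large `N`,
`|C_N(0) + 2 ∑_{1 ≤ k < m} (1 - k/m) C_N(k) - (log m)/(π² m)| ≤ K (log log m) / m`;
(3) for all large `N` there is a lag `1 ≤ k < 160` with `C_N(k) ≤ -6 · 10⁻⁶`. -/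
theorem result (RH : RiemannHypothesis) :
    (∀ G : ℝ → ℝ, ContDiff ℝ ((⊤ : ℕ∞) : WithTop ℕ∞) G → (∀ t, G (-t) = G t) →
      (∀ t, 1 ≤ |t| → G t = 0) → ∃ K : ℝ, ∀ m H : ℝ, 2 ≤ H → H ≤ m → ∀ᶠ N : ℕ in atTop,
        |1 / H * (∑ k ∈ Finset.Icc (-(N : ℤ)) N, φ G ((k - m) / H) * C N k.natAbs) +
          G 0 / (2 * Real.pi ^ 2 * m ^ 2)| ≤ K * (Real.log m ^ 3 / H ^ 3 + H ^ 2 / m ^ 4)) ∧
    (∃ K : ℝ, ∀ m : ℕ, 16 ≤ m → ∀ᶠ N : ℕ in atTop,
      |C N 0 + 2 * ∑ k ∈ Finset.Ico 1 m, (1 - (k : ℝ) / m) * C N k -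
        Real.log m / (Real.pi ^ 2 * m)| ≤
          K * Real.log (Real.log m) / m) ∧
    (∀ᶠ N : ℕ in atTop, ∃ k : ℕ, 1 ≤ k ∧ k < 160 ∧ C N k ≤ -(6 / 1000000)) := by
  refine ⟨fun G hG heven hsupp => ?_, ?_, ?_⟩
  · obtain ⟨K, -, h⟩ := Pool.Agent.H666.LRC.dyson3 RH (G := G) ⟨hG, heven, hsupp⟩
      Pool.Agent.H666.LRC.close_ag
    refine ⟨K, fun m H hH hHm => ?_⟩
    filter_upwards [h m H hH hHm] with N hN
    have e := Pool.Agent.H666.LRC.sum_int (Pool.Agent.H666.LRC.ct G)
      (Pool.Agent.H666.LRC.P389.ct_neg G) (Pool.Agent.H666.LRC.cv Pool.Agent.H666.ZG.ag N) m H N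
    rw [← e] at hN
    exact hN
  · exact sum_rule RH
  · exact negative_lag RH

end Pool.Agent.Results.MP_21f43f_nt.DysonCovariances
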