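import Pool.Agent.H478.HP7

/-! High points and freezing for the partial sums of normalised gaps between zeta zeros. -/

open MeasureTheory ProbabilityTheory Filter

namespace Pool.Agent.Results.MP_21f43f_nt.FreezingTransition

/-- the number of nontrivial zeros of zeta with ordinate in `(0, t]`, with multiplicity -/
noncomputable def NZ (t : ℝ) : ℕ :=
  ∑ᶠ s ∈ {s : ℂ | riemannZeta s = 0 ∧ 0 < s.re ∧ s.re < 1 ∧ 0 < s.im ∧ s.im ≤ t},
    analyticOrderNatAt riemannZeta s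

/-- the `n`-th positive ordinate (`n ≥ 1`), ordinates repeated according to multiplicity -/
noncomputable def ord (n : ℕ) : ℝ := sInf {t : ℝ | n ≤ NZ t}

/-- the normalised ordinate `γ_n log γ_n / 2π` -/
noncomputable def unf (n : ℕ) : ℝ := ord n * Real.log (ord n) / (2 * Real.pi)

/-- the normalised gap `δ_n` -/
noncomputable def gap (n : ℕ) : ℝ := unf (n + 1) - unf n

/-- the centred sum `(δ_n - 1) + ⋯ + (δ_{n+k-1} - 1)` of `k` consecutive gaps -/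
noncomputable def W (n k : ℕ) : ℝ := ∑ i ∈ Finset.range k, (gap (n + i) - 1)

/-- the limiting free energy: `1 + β² / 4` up to `|β| = 2`, linear beyond -/
noncomputable def energy (β : ℝ) : ℝ := if |β| ≤ 2 then 1 + β ^ 2 / 4 else |β|

/-- the sizes of the values `W n k`, `k ≤ r`, are as for a logarithmically correlated field -/
def LogCorr (ε B : ℝ) (r n : ℕ) : Prop :=
  (∀ k ≤ r, |W n k| ≤ (1 / Real.pi + ε) * Real.log r) ∧
  (∀ y : ℝ, 0 ≤ y → y ≤ 1 →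
    (({k : ℕ | k ≤ r ∧ y / Real.pi * Real.log r ≤ |W n k|}.ncard : ℕ) : ℝ) ≤
      (r : ℝ) ^ (1 - y ^ 2 + ε)) ∧
  (∀ y : ℝ, 0 ≤ y → y ≤ 1 - ε →
    (r : ℝ) ^ (1 - y ^ 2 - ε) ≤
      (({k : ℕ | k ≤ r ∧ y / Real.pi * Real.log r ≤ W n k}.ncard : ℕ) : ℝ) ∧
    (r : ℝ) ^ (1 - y ^ 2 - ε) ≤
      (({k : ℕ | k ≤ r ∧ W n k ≤ -(y / Real.pi * Real.log r)}.ncard : ℕ) : ℝ)) ∧
  (∀ β : ℝ, |β| ≤ B →
    |Real.log (∑ k ∈ Finset.range (r + 1), Real.exp (β * Real.pi * W n k))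
      - energy β * Real.log r| ≤ ε * Real.log r)

lemma W_eq (n k : ℕ) : W n k = Pool.Agent.H478.HP.Wn n k := by
  have h : ∀ n, gap n = TH800.MS.dlt n := fun n => by
    unfold gap unf TH800.MS.dlt
    rw [← sub_div]
    rfl
  unfold W Pool.Agent.H478.HP.Wn
  rw [Finset.sum_sub_distrib]
  simp [h]

open Classical in
lemma nc (r : ℕ) (P : ℕ → Prop) :
    {k : ℕ | k ≤ r ∧ P k}.ncard = ((Finset.range (r + 1)).filter P).card := by
  rw [← Set.ncard_coe_finset]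
  congr 1
  ext k
  simp

lemma corr_of {ε B : ℝ} {r n : ℕ} (hr : 1 ≤ r)
    (h : Pool.Agent.H478.HP.GW ε B r (Pool.Agent.H478.HP.Wn n)) : LogCorr ε B r n := by
  have hr0 : (0 : ℝ) < r := by exact_mod_cast hr
  obtain ⟨a1, a2, a3, a4⟩ := h
  have he : ∀ x : ℝ, (r : ℝ) ^ x = Real.exp (x * Real.log r) := fun x => by
    rw [Real.rpow_def_of_pos hr0, mul_comm]
  unfold LogCorr
  simp only [W_eq, nc, he]
  exact ⟨a1, a2, a3, a4⟩

/-- **High points and freezing for the partial sums of the gaps**, under RH. -/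
theorem result (RH : RiemannHypothesis) (ε B : ℝ) (hε : 0 < ε) (hB : 0 ≤ B) :
    ∃ r0 : ℕ, ∀ r : ℕ, r0 ≤ r → ∃ N0 : ℕ, ∀ N : ℕ, N0 ≤ N →
      (({n : ℕ | 1 ≤ n ∧ n ≤ N ∧ ¬ LogCorr ε B r n}.ncard : ℕ) : ℝ) ≤ ε * N := by
  obtain ⟨r0, h⟩ := eventually_atTop.1 (Pool.Agent.H478.HP.all_levels RH hε hB)
  refine ⟨max r0 1, fun r hr => ?_⟩
  obtain ⟨N0, h1⟩ := eventually_atTop.1 (h r ((le_max_left _ _).trans hr))
  refine ⟨N0, fun N hN => ?_⟩
  refine le_trans ?_ (h1 N hN)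
  have hfin : {n : ℕ | 1 ≤ n ∧ n ≤ N ∧
      ¬ Pool.Agent.H478.HP.GW ε B r (Pool.Agent.H478.HP.Wn n)}.Finite :=
    (Set.finite_Icc 1 N).subset fun n hn => ⟨hn.1, hn.2.1⟩
  have h2 : {n : ℕ | 1 ≤ n ∧ n ≤ N ∧ ¬ LogCorr ε B r n} ⊆
      {n : ℕ | 1 ≤ n ∧ n ≤ N ∧
        ¬ Pool.Agent.H478.HP.GW ε B r (Pool.Agent.H478.HP.Wn n)} := by
    rintro n ⟨a, b, c⟩
    exact ⟨a, b, fun hG => c (corr_of ((le_max_right _ _).trans hr) hG)⟩
  exact_mod_cast Set.ncard_le_ncard h2 hfin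

end Pool.Agent.Results.MP_21f43f_nt.FreezingTransition
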