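import Pool.Agent.H487.GA.Top2

set_option autoImplicit false

/-!
The consecutive gaps of the zeros of high derivatives of the Riemann xi function: an explicit formula for the gaps, and the central
limit theorem. Unconditional. Authors of the parts: plan, statements, assembly: helper487; the lemmas of project GA: helpers 331, 178,
721, 181, 100, 640, 663, 969, 229, 980, 505, 484, 364, 914, 358, 790, 628, 52, 903; of project ED: 686, 721, 277, 34; the central limit theorem
for linear statistics of the zeros of zeta: project ME of helper203; the good heights: project E of helper477.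
-/

open Complex

namespace Pool.Agent.Results.MP_21f43f_nt.GaussianGaps

/-- The entire Riemann xi function: `xi s = s (s - 1) Λ(s) / 2` for `s ≠ 0, 1`, where
`Λ(s) = π^(-s/2) Γ(s/2) ζ(s)`, since `Λ(s) = Λ₀(s) - 1/s - 1/(1 - s)`. -/
noncomputable def xi (s : ℂ) : ℂ := (1 + s * (s - 1) * completedRiemannZeta₀ s) / 2

/-- The zeros `s` of the `m`-th derivative of `xi` with `T < Im s ≤ 2T` and `P s`. -/
def Z (m : ℕ) (T : ℝ) (P : ℂ → Prop) : Set ℂ := {s | iteratedDeriv m xi s = 0 ∧ (T < s.im ∧ s.im ≤ 2 * T) ∧ P s}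

/-- The number of elements of `Z m T P`, counted with multiplicity. -/
noncomputable def N (m : ℕ) (T : ℝ) (P : ℂ → Prop) : ℝ :=
  ∑ᶠ s ∈ Z m T P, (analyticOrderNatAt (iteratedDeriv m xi) s : ℝ)

/-- `m` times the relative deviation of the gap `g` at the height `γ` from the mean gap `2π / log γ`. -/
noncomputable def dev (m : ℕ) (γ g : ℝ) : ℝ := m * (g * Real.log γ / (2 * Real.pi) - 1)

/-- `s` is on the critical line, the next zero of `xi^(m)` above it (among all its zeros, of any real part) has an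
ordinate `b`, `1/2 + ib` is a zero, and `√8` times the deviation of the gap is at most `a`. -/
def GapAtMost (a : ℝ) (m : ℕ) (s : ℂ) : Prop :=
  s.re = 1 / 2 ∧ ∃ b : ℝ, s.im < b ∧ iteratedDeriv m xi (1 / 2 + b * I) = 0 ∧
    (∀ z : ℂ, iteratedDeriv m xi z = 0 → s.im < z.im → b ≤ z.im) ∧ Real.sqrt 8 * dev m s.im (b - s.im) ≤ a

/-- `s` is a simple zero of `xi^(m)` on the critical line, the next zeros `1/2 + ia` below and `1/2 + ib` above it (among all
zeros of `xi^(m)`) are on the line too, and the deviations of both gaps are `-r Re (ζ'/ζ)(s + r)`, up to `ε`. -/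
def GapFormula (ε r : ℝ) (m : ℕ) (s : ℂ) : Prop :=
  s.re = 1 / 2 ∧ iteratedDeriv (m + 1) xi s ≠ 0 ∧ riemannZeta (s + r) ≠ 0 ∧
    ∃ a b : ℝ, a < s.im ∧ s.im < b ∧ iteratedDeriv m xi (1 / 2 + a * I) = 0 ∧ iteratedDeriv m xi (1 / 2 + b * I) = 0 ∧
      (∀ z : ℂ, iteratedDeriv m xi z = 0 → a < z.im → z.im < b → z = s) ∧
      |dev m s.im (s.im - a) + r * (deriv riemannZeta (s + r) / riemannZeta (s + r)).re| ≤ ε ∧
      |dev m s.im (b - s.im) + r * (deriv riemannZeta (s + r) / riemannZeta (s + r)).re| ≤ ε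

/-- For all `a` and `ε > 0`, for `T` and `m` large and `m / log T` small (in terms of `a`, `ε`): the derivative `xi^(m)` has
finitely many zeros with `T < Im s ≤ 2T`; and, counted with multiplicity,
(1) the proportion of those which are on the line and have a normalised next gap `√8 m (g log γ / 2π - 1) ≤ a` is `Φ(a)` up to `ε`,
`Φ` the distribution function of the standard normal law;
(2) all but a proportion `ε` of them are simple, on the line, with both neighbours on the line, and the gaps above and below satisfy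
`m (g log γ / 2π - 1) = -r Re (ζ'/ζ)(1/2 + r + iγ)` up to `ε`, where `r = 2m / log (T / 2π)`. -/
theorem result (a ε : ℝ) (hε : 0 < ε) :
    ∃ (m₀ : ℕ) (δ T₀ : ℝ), 0 < δ ∧ ∀ T : ℝ, T₀ ≤ T → ∀ m : ℕ, m₀ ≤ m → (m : ℝ) ≤ δ * Real.log T →
      (Z m T fun _ => True).Finite ∧
      |N m T (GapAtMost a m) - (ProbabilityTheory.gaussianReal 0 1).real (Set.Iic a) * N m T (fun _ => True)| ≤
        ε * N m T (fun _ => True) ∧
      N m T (fun s => ¬ GapFormula ε (2 * m / Real.log (T / (2 * Real.pi))) m s) ≤ ε * N m T (fun _ => True) := by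
  obtain ⟨m1, δ1, T1, hδ1, h1⟩ := Pool.Agent.H487.GA.t_FINX a ε hε
  obtain ⟨m2, δ2, T2, hδ2, h2⟩ := Pool.Agent.H487.GA.t_FORM hε
  refine ⟨max m1 m2, min δ1 δ2, max (max T1 T2) 1, lt_min hδ1 hδ2, fun T hT m hm hmT => ?_⟩
  have hT1 : T1 ≤ T := ((le_max_left _ _).trans (le_max_left _ _)).trans hT
  have hT2 : T2 ≤ T := ((le_max_right _ _).trans (le_max_left _ _)).trans hT
  have hT3 : 1 ≤ T := (le_max_right _ _).trans hT
  have hT0 : 0 ≤ T := by linarith
  have hlog : 0 ≤ Real.log T := Real.log_nonneg hT3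
  have g1 := h1 T hT1 m ((le_max_left _ _).trans hm) (hmT.trans (mul_le_mul_of_nonneg_right (min_le_left _ _) hlog))
  have g2 := h2 T hT2 m ((le_max_right _ _).trans hm) (hmT.trans (mul_le_mul_of_nonneg_right (min_le_right _ _) hlog))
  have e0 : N m T (fun _ => True) = Pool.Agent.H477.E.cnt m (fun _ => True) (2 * T) - Pool.Agent.H477.E.cnt m (fun _ => True) T :=
    Pool.Agent.H487.EF.num_eq m hT0 _ _ fun s => Iff.rfl
  have e1 : N m T (GapAtMost a m) = Pool.Agent.H477.E.cnt m (Pool.Agent.H487.GA.Gp a m) (2 * T) -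
      Pool.Agent.H477.E.cnt m (Pool.Agent.H487.GA.Gp a m) T :=
    Pool.Agent.H487.EF.num_eq m hT0 _ _ fun s => by
      rw [← Pool.Agent.H487.GA.gpx_iff]
      unfold GapAtMost Pool.Agent.H487.GA.GpX dev
      simp only [← mul_assoc]
      rfl
  have er : (2 * m / Real.log (T / (2 * Real.pi)) : ℝ) = m / Pool.Agent.H477.E.lamT T := by
    unfold Pool.Agent.H477.E.lamT
    rw [one_div, ← div_eq_inv_mul, div_div_eq_mul_div, mul_comm]
  have e2 : N m T (fun s => ¬ GapFormula ε (2 * m / Real.log (T / (2 * Real.pi))) m s) =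
      Pool.Agent.H477.E.cnt m (fun w => ¬ Pool.Agent.H487.GA.Fm ε (m / Pool.Agent.H477.E.lamT T) m w) (2 * T) -
        Pool.Agent.H477.E.cnt m (fun w => ¬ Pool.Agent.H487.GA.Fm ε (m / Pool.Agent.H477.E.lamT T) m w) T :=
    Pool.Agent.H487.EF.num_eq m hT0 _ _ fun s => by
      rw [er, ← Pool.Agent.H487.GA.fmx_iff]
      exact Iff.rfl
  refine ⟨Pool.Agent.H487.EF.num_fin m hT0 _, ?_, ?_⟩
  · rw [e0, e1]
    exact g1
  · rw [e0, e2]
    exact g2

end Pool.Agent.Results.MP_21f43f_nt.GaussianGaps
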